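import Pool.Agent.Y148.KL.Main

/-!
# Murre's conjecture (D) and products of homologically trivial cycles
-/

open CategoryTheory AlgebraicGeometry

universe u v w

namespace Pool.Agent.Y148.KP

open Pool.Agent.H914 Pool.Agent.H914.VarClass Pool.Agent.H914.VarClass.Obj Pool.Agent.W492.BB
  Pool.Agent.W550.Corr Pool.Agent.TH133 Pool.Agent.Y110 Pool.Agent.Y110.Dfor Pool.Agent.Y148.BB
  Pool.Agent.Y148.KL

set_option linter.unusedSectionVars false
set_option linter.unusedVariables false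

variable {k : Type u} [Field k] {𝒱 : VarClass k} {C : TheoryData.{u, v, 0} 𝒱 ℚ}
  [hC : IsChowProj C] {K : Type w} [Field K]
  {H : WeilTheoryData.{u, v, w} C K} [hH : IsWeilProj H] {X Y Z W P T : 𝒱.Obj}

include hC hH

lemma act_odd_self {o : C.A T} (hT : T.dim = 1) (ho : C.Deg 1 o) {ξ : C.A T}
    (hξ : ξ ∈ C.gr T 1) (hξ0 : H.cl ξ = 0) : C.act (oddProj C o) ξ = ξ := by
  have h1 : C.act (C.ext o (1 : C.A T)) ξ = 0 := by
    apply act_ext_zero_of_lt (i := 2)
    · have := C.mul_mem ho hξ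
      exact gr_congr (by norm_num) this
    · rw [hT]; norm_num
  have h2 : C.act (C.ext (1 : C.A T) o) ξ = 0 := by
    have h3 : C.push (snd T T) (C.pull (fst T T) ((1 : C.A T) * ξ)) =
        C.push (snd T T) (C.pull (fst T T) (0 : C.A T)) := by
      apply deg_eq_of_cl (H := H)
      · rw [one_mul, hT]; exact hξ
      · exact Submodule.zero_mem _
      · rw [one_mul, hξ0, map_zero]
    rw [TH133.act_ext (H := H), h3, map_zero, map_zero, zero_mul]
  rw [oddProj, TheoryData.act_sub, TheoryData.act_sub, act_dg, h1, h2, sub_zero, sub_zero]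

/-- The two conditions on a Chow-Kunneth decomposition of a variety of dimension `2i`. -/
def Shadow (H : WeilTheoryData.{u, v, w} C K) (T : 𝒱.Obj) {X : 𝒱.Obj}
    (π : ℕ → C.A (X.prod X)) (i : ℕ) : Prop :=
  ∀ a : ℕ, 2 * i ≤ a → (∀ y : C.A X, y ∈ C.gr X i → H.cl y = 0 → ∀ ξ : C.A T, ξ ∈ C.gr T 1 →
    H.cl ξ = 0 → C.ext (C.act (π a) y) ξ = 0) ∧
    ∀ G : C.A (T.prod X), G ∈ C.gr (T.prod X) i → H.cl G = 0 → ∀ ξ : C.A T, ξ ∈ C.gr T 1 →
      H.cl ξ = 0 → C.act (π a) (C.act G ξ) = 0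

/-- Murre's conjecture (D) for varieties of dimension `2i` and cycles of codimension `i`. -/
theorem D_of_shadow (hF : FibreProperty C) {o : C.A T} (hT : T.dim = 1) (ho : C.Deg 1 o)
    (hd : HasDegree C o 1) (ho' : H.cl (C.pull (Obj.lift (𝟙 T) (𝟙 T)) (oddProj C o)) ≠ 0)
    {i : ℕ} (hX : X.dim = 2 * i) {π : ℕ → C.A (X.prod X)} (hπ : IsCK H X π)
    (hk : Shadow H T π i) : MurreDFor H π i := by
  set ρ := oddProj C o with hρ
  have hρm : ρ ∈ C.gr (T.prod T) T.dim := odd_mem hT ho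
  have hρρ : C.comp ρ ρ = ρ := odd_odd hT ho hd
  have htρ : tp C ρ = ρ := tp_odd o
  have hρ1 : curveCK C o 1 = ρ := rfl
  have hcur := curveCK_isCK H hT ho hd
  obtain ⟨q, hq⟩ := exists_hasDegree (C := C) (x := C.pull (Obj.lift (𝟙 T) (𝟙 T)) ρ)
    (C.pull_mem _ hρm)
  have hq0 : q ≠ 0 := by
    rintro rfl
    exact ho' (cl_eq_zero_of_hasDegree H (C.pull_mem _ hρm) hq)
  have hρcl : ∀ t : C.A T, t ∈ C.gr T 1 → H.cl (C.act ρ t) = 0 := by
    intro t ht
    rw [cl_act H, ← hρ1, curveCK_act H hT ho hd 1 (2 * 1) (H.cl_mem ht), if_neg (by norm_num)]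
  rw [murreDFor_iff hπ]
  intro x₀ hx₀ hx₀c a ha
  set y := C.act (π a) x₀ with hy
  have hym : y ∈ C.gr X i := act_mem0 C (hπ.deg a) hx₀
  have hyc : H.cl y = 0 := by rw [hy, cl_act H, hx₀c, TheoryData.act_map_zero]
  have hπy : ∀ l : ℕ, C.act (π l) y = if l = a then y else 0 := by
    intro l
    rw [hy, ← C.act_comp, hπ.comp_eq]
    by_cases h : a = l
    · rw [if_pos h, if_pos h.symm]
    · rw [if_neg h, if_neg (fun h' => h h'.symm), TheoryData.act_zero]
  have hdim : (X.prod T).dim + 1 = 2 * (i + 1) := by rw [dim_prod, hX, hT]; ring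
  -- the products with cycles of degree zero vanish
  have key1 : ∀ t : C.A T, t ∈ C.gr T 1 → C.ext y (C.act ρ t) = 0 := by
    intro t ht
    exact (hk a ha).1 x₀ hx₀ hx₀c _ (act_mem0 C hρm ht) (hρcl t ht)
  -- the class z' on `(X × T) × T`
  set A0 := wg C (snd X T) (C.pull (fst X T) y) with hA0
  have hA0m : A0 ∈ C.gr ((X.prod T).prod T) ((X.prod T).dim + (-(i : ℤ))) := by
    have h1 := wg_mem (snd X T) (C.pull_mem (fst X T) hym)
    exact gr_congr (by rw [dim_prod, hX, hT]; push_cast; ring) h1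
  have hA0e : ∀ ξ : C.A T, C.act (tp C A0) ξ = C.ext y ξ := by
    intro ξ
    have e1 : Obj.lift (𝟙 (X.prod T)) (snd X T) ≫ snd (X.prod T) T = snd X T := lift_snd _ _
    have e2 : Obj.lift (𝟙 (X.prod T)) (snd X T) ≫ fst (X.prod T) T = 𝟙 _ := lift_fst _ _
    rw [act_tp C A0 ξ, hA0, wg, ← C.proj_right, ← C.pull_comp, e1, ← C.push_comp, e2, C.push_id]
    rfl
  set z' := C.comp A0 ρ with hz'
  have hz'm : z' ∈ C.gr ((X.prod T).prod T) ((i : ℤ) + 1) := by
    have h1 := comp_mem C (e' := 0) hA0m (by rw [add_zero]; exact hρm)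
    exact gr_congr (by rw [dim_prod, hX, hT]; push_cast; ring) h1
  have hfib : ∀ t : C.A T, C.Deg 1 t →
      C.down (fst (X.prod T) T) (C.mul z' (C.up (snd (X.prod T) T) t)) = 0 := by
    intro t ht
    have e1 : C.down (fst (X.prod T) T) (C.mul z' (C.up (snd (X.prod T) T) t)) =
        C.act (tp C z') t := (act_tp C z' t).symm
    rw [e1, hz', tp_comp C (ch_comm C), C.act_comp, htρ, hA0e]
    exact key1 t ht
  have hspan := hF (X.prod T) T (i + 1) z' hT hz'm hfib
  -- the linear map Λ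
  set δ : X.prod T ⟶ (X.prod T).prod T := Obj.lift (𝟙 _) (snd X T) with hδ
  let Λ : C.A ((X.prod T).prod T) →ₗ[ℚ] C.A X := C.actL (π a) ∘ₗ C.push (fst X T) ∘ₗ
    (C.pull δ).toLinearMap ∘ₗ (compL C).flip ρ
  have hΛ : ∀ c, Λ c = C.act (π a) (C.push (fst X T) (C.pull δ (C.comp c ρ))) := fun c => rfl
  have hΛz : Λ z' = q • y := by
    have e0 : C.comp z' ρ = z' := by rw [hz', comp_assoc C A0 ρ ρ, hρρ]
    have e1 : δ ≫ prodMap (snd X T) (𝟙 T) = snd X T ≫ Obj.lift (𝟙 T) (𝟙 T) := by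
      apply prod_ext <;> simp [hδ, prodMap, comp_lift]
    have e2 : δ ≫ fst (X.prod T) T = 𝟙 _ := lift_fst _ _
    rw [hΛ, e0, hz', hA0, wg_comp, map_mul, ← C.pull_comp, e1, ← C.pull_comp δ, e2, C.pull_id,
      C.pull_comp, C.proj_right, (hq X).2, smul_mul_assoc, one_mul, act_map_smul, hπy, if_pos rfl]
  have hΛ0 : ∀ c ∈ Submodule.span ℚ {c : C.A ((X.prod T).prod T) | ∃ (x : C.A (X.prod T))
      (t : C.A T), C.Deg ((i : ℤ) + 1 - 1) x ∧ C.Deg 1 t ∧ c = C.ext x t}, Λ c = 0 := by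
    intro c hc
    have hle : Submodule.span ℚ {c : C.A ((X.prod T).prod T) | ∃ (x : C.A (X.prod T))
        (t : C.A T), C.Deg ((i : ℤ) + 1 - 1) x ∧ C.Deg 1 t ∧ c = C.ext x t} ≤
        LinearMap.ker Λ := by
      rw [Submodule.span_le]
      rintro c ⟨x, t, hx, ht, rfl⟩
      have hx' : x ∈ C.gr (X.prod T) i := gr_congr (by ring) hx
      change Λ (C.ext x t) = 0
      set ξ := C.act ρ t with hξ
      have hξm : ξ ∈ C.gr T 1 := act_mem0 C hρm ht
      have hρξ : C.act ρ ξ = ξ := by rw [hξ, ← C.act_comp, hρρ]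
      have e1 : C.pull δ (C.ext x ξ) = x * C.pull (snd X T) ξ := by
        have e3 : δ ≫ fst (X.prod T) T = 𝟙 _ := lift_fst _ _
        have e4 : δ ≫ snd (X.prod T) T = snd X T := lift_snd _ _
        rw [TheoryData.ext, map_mul, ← C.pull_comp, ← C.pull_comp, e3, e4, C.pull_id]
      set G := C.comp ρ (C.comp (tp C x) (π a)) with hG
      have hGξ : Λ (C.ext x t) = C.act G ξ := by
        rw [hΛ, ext_comp, ← hξ, e1, ← act_tp C x ξ, hG, C.act_comp, hρξ, C.act_comp]
      have htx : tp C x ∈ C.gr (T.prod X) (T.dim + ((i : ℤ) - 1)) := by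
        have := tp_mem C hx'
        exact gr_congr (by rw [hT]; push_cast; ring) this
      have hGm : G ∈ C.gr (T.prod X) (T.dim + ((i : ℤ) - 1)) := by
        have h1 := comp_mem C (e := (i : ℤ) - 1) (e' := 0) htx
          (by rw [add_zero]; exact hπ.deg a)
        have h2 := comp_mem C (e := 0) (by rw [add_zero]; exact hρm) h1
        exact gr_congr (by ring) h2
      have hGc : H.cl G = 0 := by
        apply hom_zero_of_act H
        intro b
        have h1 : H.actL (H.cl G) = 0 := by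
          apply ext_gr H
          intro l b hb
          rw [TheoryData.actL_apply, LinearMap.zero_apply, hG, actH_comp, actH_comp, ← hρ1,
            curveCK_act H hT ho hd 1 l hb]
          split_ifs with h
          · have h2 := actH_mem H htx hb
            rw [hπ.actH_eq a _ h2, if_neg]
            rw [h]
            push_cast
            omega
          · rw [TheoryData.act_map_zero, TheoryData.act_map_zero]
        exact LinearMap.congr_fun h1 b
      have h1 := (hk a ha).2 G (gr_congr (by rw [hT]; push_cast; ring) hGm) hGc ξ hξm (hρcl t ht)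
      have h2 : C.act (π a) (C.act G ξ) = C.act G ξ := by
        rw [hG, C.act_comp, C.act_comp, ← C.act_comp, hπ.idem]
      rw [hGξ, ← h2]
      exact h1
    exact hle hc
  have h1 : q • y = 0 := by rw [← hΛz, hΛ0 z' hspan]
  exact (smul_eq_zero.1 h1).resolve_left hq0

/-- Products of homologically trivial cycles under (D). -/
theorem mul_mem_of_D (hD : ∀ (X : 𝒱.Obj) (π : ℕ → C.A (X.prod X)), IsCK H X π → ∀ i : ℕ,
    MurreDFor H π i) {π : ℕ → C.A (X.prod X)} (hπ : IsCK H X π) {i j : ℕ} {x y : C.A X}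
    (hx : x ∈ C.gr X i) (hx0 : H.cl x = 0) (hy : y ∈ C.gr X j) (hy0 : H.cl y = 0) :
    x * y ∈ fil C π (i + j) 2 := by
  have hzero : ∀ (X : 𝒱.Obj) (i : ℕ), ZeroIsAll H X i :=
    fun X i π hπ => fil_zero_of_D hπ (hD X π hπ i)
  have hx1 := (hD X π hπ i x).2 ⟨hx, hx0⟩
  have hy1 := (hD X π hπ j y).2 ⟨hy, hy0⟩
  rw [mem_fil hπ] at hx1 hy1
  have hxy : ∀ b : ℕ, 2 * (i + j) < b + 2 → C.act (prodCK C π π b) (C.ext x y) = 0 := by
    intro b hb
    unfold prodCK
    rw [act_sum]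
    apply Finset.sum_eq_zero
    intro p hp
    rw [Finset.mem_range] at hp
    rw [act_tens_ext C (π p) (π (b - p)) (fun f c => ch_comm C _ _)]
    by_cases h1 : 2 * (i : ℤ) - 1 < p
    · rw [hx1.2 p h1, TheoryData.ext_zero_left]
    · rw [hy1.2 (b - p) (by omega), TheoryData.ext_zero_right]
  have hm : C.ext x y ∈ C.gr (X.prod X) (i + j : ℕ) := by
    have := ext_mem (C := C) (H := H) hx hy
    push_cast
    exact this
  set δ : X ⟶ X.prod X := Obj.lift (𝟙 X) (𝟙 X) with hδ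
  have hΓ : C.cograph δ ∈ C.gr ((X.prod X).prod X) ((X.prod X).dim + 0) := by
    have h := C.push_mem (Obj.lift δ (𝟙 X)) (C.one_mem X)
    exact gr_congr (by rw [dim_prod, dim_prod]; push_cast; ring) h
  have hNR : NoRaising H (X.prod X) X := noRaising_of_zeroIsAll (fun i => hzero _ i)
  have hπ2 := hπ.prod hπ
  have h2 : C.pull δ (C.ext x y) = x * y := by
    rw [TheoryData.ext, map_mul, ← C.pull_comp, ← C.pull_comp, lift_fst, lift_snd, C.pull_id,
      C.pull_id]
  have h3 : x * y = C.act (C.cograph δ) (C.ext x y) := by rw [C.act_cograph]; exact h2.symm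
  rw [mem_fil hπ]
  refine ⟨by rw [← h2]; exact C.pull_mem _ hm, fun b hb => ?_⟩
  have h4 : C.ext x y = ∑ l ∈ Finset.range (2 * (X.prod X).dim + 1),
      C.act (prodCK C π π l) (C.ext x y) := by
    rw [← act_sum, hπ2.sum, act_dg]
  have h5 : ∀ l : ℕ, C.act (π b) (C.act (C.cograph δ) (C.act (prodCK C π π l) (C.ext x y))) =
      0 := by
    intro l
    by_cases hl : 2 * (i + j) < l + 2
    · rw [hxy l hl, TheoryData.act_map_zero, TheoryData.act_map_zero]
    · have h6 := hNR _ π hπ2 hπ 0 (C.cograph δ) hΓ l b (by push_cast at hb ⊢; omega)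
      have h7 := congrArg (fun g => C.act g (C.ext x y)) h6
      simp only [C.act_comp, TheoryData.act_zero] at h7
      exact h7
  have h7 : C.act (π b) (C.act (C.cograph δ) (C.ext x y)) =
      ∑ l ∈ Finset.range (2 * (X.prod X).dim + 1),
        C.act (π b) (C.act (C.cograph δ) (C.act (prodCK C π π l) (C.ext x y))) := by
    conv_lhs => rw [h4]
    change C.actL (π b) (C.actL (C.cograph δ) _) = _
    rw [map_sum, map_sum]
    rfl
  rw [h3, h7]
  exact Finset.sum_eq_zero fun l _ => h5 l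

/-- The conditions of `Shadow` follow from the condition on products. -/
theorem shadow_of_products {o : C.A T} (hT : T.dim = 1) (ho : C.Deg 1 o) (hd : HasDegree C o 1)
    {i : ℕ} {π : ℕ → C.A (X.prod X)} (hπ : IsCK H X π)
    (hk : ∀ ρ : ℕ → C.A ((X.prod T).prod (X.prod T)), IsCK H (X.prod T) ρ →
      ∀ x : C.A (X.prod T), x ∈ C.gr (X.prod T) i → H.cl x = 0 → ∀ ξ : C.A T, ξ ∈ C.gr T 1 →
        H.cl ξ = 0 → x * C.pull (snd X T) ξ ∈ fil C ρ (i + 1) 2) : Shadow H T π i := by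
  have hcur := curveCK_isCK H hT ho hd
  have hkk : ∀ x : C.A (X.prod T), x ∈ C.gr (X.prod T) i → H.cl x = 0 → ∀ ξ : C.A T,
      ξ ∈ C.gr T 1 → H.cl ξ = 0 → ∀ b : ℕ, 2 * i < b →
        C.act (prodCK C π (curveCK C o) b) (x * C.pull (snd X T) ξ) = 0 := by
    intro x hx hx0 ξ hξ hξ0 b hb
    have h1 := hk _ (hπ.prod hcur) x hx hx0 ξ hξ hξ0
    rw [mem_fil (hπ.prod hcur)] at h1
    exact h1.2 b (by push_cast; omega)
  intro a ha
  constructor
  · intro x₀ hx₀ hx₀c ξ hξ hξ0
    set y := C.act (π a) x₀ with hy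
    have hym : y ∈ C.gr X i := act_mem0 C (hπ.deg a) hx₀
    have hyc : H.cl y = 0 := by rw [hy, cl_act H, hx₀c, TheoryData.act_map_zero]
    have hπy : ∀ l : ℕ, C.act (π l) y = if l = a then y else 0 := by
      intro l
      rw [hy, ← C.act_comp, hπ.comp_eq]
      by_cases h : a = l
      · rw [if_pos h, if_pos h.symm]
      · rw [if_neg h, if_neg (fun h' => h h'.symm), TheoryData.act_zero]
    have h1 := hkk (C.pull (fst X T) y) (C.pull_mem (fst X T) hym)
      (by rw [H.cl_pull, hyc, map_zero]) ξ hξ hξ0 (a + 1) (by omega)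
    change C.act (prodCK C π (curveCK C o) (a + 1)) (C.ext y ξ) = 0 at h1
    rw [← h1, prodCK, act_sum, Finset.sum_eq_single a]
    · rw [act_tens_ext C (π a) _ (fun f c => ch_comm C _ _), hπy, if_pos rfl,
        Nat.add_sub_cancel_left]
      have e : curveCK C o 1 = oddProj C o := rfl
      rw [e, act_odd_self (H := H) hT ho hξ hξ0]
    · intro l _ hl
      rw [act_tens_ext C (π l) _ (fun f c => ch_comm C _ _), hπy, if_neg hl,
        TheoryData.ext_zero_left]
    · intro h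
      exact absurd (Finset.mem_range.2 (by omega)) h
  · intro G hG hG0 ξ hξ hξ0
    have hx'm : tp C G ∈ C.gr (X.prod T) i := tp_mem C hG
    have hx'c : H.cl (tp C G) = 0 := by rw [cl_tp, hG0, tp_zero]
    set v := tp C G * C.pull (snd X T) ξ with hv
    have hpv : C.push (fst X T) v = C.act G ξ := by
      rw [hv, ← act_tp C (tp C G) ξ, tp_tp]
    have h1 := hkk (tp C G) hx'm hx'c ξ hξ hξ0 (a + 2) (by omega)
    have h2 : C.push (fst X T) (C.act (prodCK C π (curveCK C o) (a + 2)) v) =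
        C.act (π a) (C.push (fst X T) v) := by
      rw [prodCK, act_sum, map_sum, Finset.sum_eq_single a]
      · rw [push_act_tens, Nat.add_sub_cancel_left, act_tp_curveCK hT ho hd, if_pos rfl]
        rw [act_tp C v 1, map_one, mul_one]
      · intro l hl hla
        rw [Finset.mem_range] at hl
        rw [push_act_tens, act_tp_curveCK hT ho hd, if_neg (by omega),
          TheoryData.act_map_zero, TheoryData.act_map_zero]
      · intro h
        exact absurd (Finset.mem_range.2 (by omega)) h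
    rw [h1, map_zero, hpv] at h2
    exact h2.symm

/-- **(D) and products of homologically trivial cycles.** -/
theorem tfae_products (hF : FibreProperty C) {o : C.A T} (hT : T.dim = 1) (ho : C.Deg 1 o)
    (hd : HasDegree C o 1) (ho' : H.cl (C.pull (Obj.lift (𝟙 T) (𝟙 T)) (oddProj C o)) ≠ 0) :
    List.TFAE [
      ∀ (X : 𝒱.Obj) (π : ℕ → C.A (X.prod X)), IsCK H X π → ∀ i : ℕ, MurreDFor H π i,
      ∀ (X : 𝒱.Obj) (π : ℕ → C.A (X.prod X)), IsCK H X π → ∀ (i j : ℕ) (x y : C.A X),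
        x ∈ C.gr X i → H.cl x = 0 → y ∈ C.gr X j → H.cl y = 0 → x * y ∈ fil C π (i + j) 2,
      ∀ (X : 𝒱.Obj) (i : ℕ), X.dim = 2 * i → ∀ π : ℕ → C.A ((X.prod T).prod (X.prod T)),
        IsCK H (X.prod T) π → ∀ x : C.A (X.prod T), x ∈ C.gr (X.prod T) i → H.cl x = 0 →
          ∀ ξ : C.A T, ξ ∈ C.gr T 1 → H.cl ξ = 0 → x * C.pull (snd X T) ξ ∈ fil C π (i + 1) 2,
      ∀ (X : 𝒱.Obj) (i : ℕ), X.dim = 2 * i → ∀ π : ℕ → C.A (X.prod X), IsCK H X π →
        Shadow H T π i,
      (∀ (X : 𝒱.Obj) (i : ℕ), ZeroIsAll H X i) ∧ ∀ (X : 𝒱.Obj) (i : ℕ), X.dim = 2 * i →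
        ∀ π : ℕ → C.A (X.prod X), IsCK H X π → ∀ y : C.A X, y ∈ C.gr X i → H.cl y = 0 →
          ∀ ξ : C.A T, ξ ∈ C.gr T 1 → H.cl ξ = 0 → C.ext (C.act (π (2 * i)) y) ξ = 0] := by
  tfae_have 1 → 2 := by
    intro h X π hπ i j x y hx hx0 hy hy0
    have h1 := mul_mem_of_D h hπ hx hx0 hy hy0
    exact_mod_cast h1
  tfae_have 2 → 3 := by
    intro h X i hX π hπ x hx hx0 ξ hξ hξ0
    have h1 := h (X.prod T) π hπ i 1 x (C.pull (snd X T) ξ) hx hx0 (by
      exact_mod_cast C.pull_mem (snd X T) hξ) (by rw [H.cl_pull, hξ0, map_zero])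
    exact_mod_cast h1
  tfae_have 3 → 4 := fun h X i hX π hπ => shadow_of_products hT ho hd hπ (h X i hX)
  tfae_have 4 → 1 := fun h X π hπ i => D_of_middle
    (fun X π hπ i hX => D_of_shadow hF hT ho hd ho' hX hπ (h X i hX π hπ)) hπ i
  tfae_have 1 → 5 := by
    intro h
    refine ⟨fun X i π hπ => fil_zero_of_D hπ (h X π hπ i), fun X i hX π hπ y hy hy0 ξ _ _ => ?_⟩
    rw [(murreDFor_iff hπ i).1 (h X π hπ i) y hy hy0 (2 * i) le_rfl, TheoryData.ext_zero_left]
  tfae_have 5 → 4 := by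
    rintro ⟨hz, h⟩ X i hX π hπ a ha
    have hbig : 2 * i < a → ∀ y ∈ C.gr X i, C.act (π a) y = 0 := by
      intro ha y hy
      have h1 : y ∈ fil C π i 0 := by rw [hz X i π hπ]; exact hy
      rw [mem_fil hπ] at h1
      exact h1.2 a (by omega)
    rcases Nat.lt_or_ge (2 * i) a with h2 | h2
    · refine ⟨fun y hy _ ξ _ _ => by rw [hbig h2 y hy, TheoryData.ext_zero_left],
        fun G hG _ ξ hξ _ => hbig h2 _ ?_⟩
      have h3 := act_mem' C (e := (i : ℤ) - 1) (Γ := G)
        (gr_congr (by rw [hT]; push_cast; ring) hG) hξ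
      exact gr_congr (by ring) h3
    · obtain rfl : a = 2 * i := by omega
      refine ⟨fun y hy hy0 ξ hξ hξ0 => h X i hX π hπ y hy hy0 ξ hξ hξ0,
        fun G hG hG0 ξ hξ hξ0 => ?_⟩
      have hNR : NoRaising H T X := noRaising_of_zeroIsAll (fun i => hz _ i)
      have h3 := hNR _ π (curveCK_isCK H hT ho hd) hπ ((i : ℤ) - 1) G
        (gr_congr (by rw [hT]; push_cast; ring) hG) 1 (2 * i) (by push_cast; omega)
      have h4 := congrArg (fun g => C.act g ξ) h3
      have e : curveCK C o 1 = oddProj C o := rfl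
      simp only [C.act_comp, TheoryData.act_zero] at h4
      rw [e, act_odd_self (H := H) hT ho hξ hξ0] at h4
      exact h4
  tfae_finish

end Pool.Agent.Y148.KP
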