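import Pool.Agent.Y148.KP.Prod

/-!
# Murre's conjecture (C) and algebraic equivalence
-/

open CategoryTheory AlgebraicGeometry

universe u v w

namespace Pool.Agent.Y148.KP

open Pool.Agent.H914 Pool.Agent.H914.VarClass Pool.Agent.H914.VarClass.Obj Pool.Agent.W492.BB
  Pool.Agent.W550.Corr Pool.Agent.TH133 Pool.Agent.Y110 Pool.Agent.Y110.Dfor Pool.Agent.Y148.BB
  Pool.Agent.Y148.KL

set_option linter.unusedSectionVars false
set_option linter.unusedVariables false

variable {k : Type u} [Field k] {𝒱 : VarClass k} {C : TheoryData.{u, v, 0} 𝒱 ℚ}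
  [hC : IsChowProj C] {K : Type w} [Field K]
  {H : WeilTheoryData.{u, v, w} C K} [hH : IsWeilProj H] {X Y Z W P T : 𝒱.Obj}

include hC hH

/-- A homologically trivial class of weight `a ≥ 2i` in `CH^i(X)`, `dim X = 2i`, is zero if its
exterior products with the divisors of degree zero on `T` vanish, and if the classes of weight `a`
parametrised by `T` vanish. -/
theorem eq_zero_of_shadow (hF : FibreProperty C) {o : C.A T} (hT : T.dim = 1) (ho : C.Deg 1 o)
    (hd : HasDegree C o 1) (ho' : H.cl (C.pull (Obj.lift (𝟙 T) (𝟙 T)) (oddProj C o)) ≠ 0)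
    {i : ℕ} (hX : X.dim = 2 * i) {π : ℕ → C.A (X.prod X)} (hπ : IsCK H X π) {a : ℕ}
    (ha : 2 * i ≤ a) (x₀ : C.A X) (hx₀ : x₀ ∈ C.gr X i) (hx₀c : H.cl x₀ = 0)
    (hk1 : ∀ ξ : C.A T, ξ ∈ C.gr T 1 → H.cl ξ = 0 → C.ext (C.act (π a) x₀) ξ = 0)
    (hk2 : ∀ G : C.A (T.prod X), G ∈ C.gr (T.prod X) i → H.cl G = 0 → ∀ ξ : C.A T,
      ξ ∈ C.gr T 1 → H.cl ξ = 0 → C.act (π a) (C.act G ξ) = 0) : C.act (π a) x₀ = 0 := by
  set ρ := oddProj C o with hρ
  have hρm : ρ ∈ C.gr (T.prod T) T.dim := odd_mem hT ho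
  have hρρ : C.comp ρ ρ = ρ := odd_odd hT ho hd
  have htρ : tp C ρ = ρ := tp_odd o
  have hρ1 : curveCK C o 1 = ρ := rfl
  have hcur := curveCK_isCK H hT ho hd
  obtain ⟨q, hq⟩ := exists_hasDegree (C := C) (x := C.pull (Obj.lift (𝟙 T) (𝟙 T)) ρ)
    (C.pull_mem _ hρm)
  have hq0 : q ≠ 0 := by
    rintro rfl
    exact ho' (cl_eq_zero_of_hasDegree H (C.pull_mem _ hρm) hq)
  have hρcl : ∀ t : C.A T, t ∈ C.gr T 1 → H.cl (C.act ρ t) = 0 := by
    intro t ht
    rw [cl_act H, ← hρ1, curveCK_act H hT ho hd 1 (2 * 1) (H.cl_mem ht), if_neg (by norm_num)]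
  set y := C.act (π a) x₀ with hy
  have hym : y ∈ C.gr X i := act_mem0 C (hπ.deg a) hx₀
  have hyc : H.cl y = 0 := by rw [hy, cl_act H, hx₀c, TheoryData.act_map_zero]
  have hπy : ∀ l : ℕ, C.act (π l) y = if l = a then y else 0 := by
    intro l
    rw [hy, ← C.act_comp, hπ.comp_eq]
    by_cases h : a = l
    · rw [if_pos h, if_pos h.symm]
    · rw [if_neg h, if_neg (fun h' => h h'.symm), TheoryData.act_zero]
  have hdim : (X.prod T).dim + 1 = 2 * (i + 1) := by rw [dim_prod, hX, hT]; ring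
  -- the products with cycles of degree zero vanish
  have key1 : ∀ t : C.A T, t ∈ C.gr T 1 → C.ext y (C.act ρ t) = 0 := by
    intro t ht
    exact hk1 _ (act_mem0 C hρm ht) (hρcl t ht)
  -- the class z' on `(X × T) × T`
  set A0 := wg C (snd X T) (C.pull (fst X T) y) with hA0
  have hA0m : A0 ∈ C.gr ((X.prod T).prod T) ((X.prod T).dim + (-(i : ℤ))) := by
    have h1 := wg_mem (snd X T) (C.pull_mem (fst X T) hym)
    exact gr_congr (by rw [dim_prod, hX, hT]; push_cast; ring) h1
  have hA0e : ∀ ξ : C.A T, C.act (tp C A0) ξ = C.ext y ξ := by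
    intro ξ
    have e1 : Obj.lift (𝟙 (X.prod T)) (snd X T) ≫ snd (X.prod T) T = snd X T := lift_snd _ _
    have e2 : Obj.lift (𝟙 (X.prod T)) (snd X T) ≫ fst (X.prod T) T = 𝟙 _ := lift_fst _ _
    rw [act_tp C A0 ξ, hA0, wg, ← C.proj_right, ← C.pull_comp, e1, ← C.push_comp, e2, C.push_id]
    rfl
  set z' := C.comp A0 ρ with hz'
  have hz'm : z' ∈ C.gr ((X.prod T).prod T) ((i : ℤ) + 1) := by
    have h1 := comp_mem C (e' := 0) hA0m (by rw [add_zero]; exact hρm)
    exact gr_congr (by rw [dim_prod, hX, hT]; push_cast; ring) h1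
  have hfib : ∀ t : C.A T, C.Deg 1 t →
      C.down (fst (X.prod T) T) (C.mul z' (C.up (snd (X.prod T) T) t)) = 0 := by
    intro t ht
    have e1 : C.down (fst (X.prod T) T) (C.mul z' (C.up (snd (X.prod T) T) t)) =
        C.act (tp C z') t := (act_tp C z' t).symm
    rw [e1, hz', tp_comp C (ch_comm C), C.act_comp, htρ, hA0e]
    exact key1 t ht
  have hspan := hF (X.prod T) T (i + 1) z' hT hz'm hfib
  -- the linear map Λ
  set δ : X.prod T ⟶ (X.prod T).prod T := Obj.lift (𝟙 _) (snd X T) with hδ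
  let Λ : C.A ((X.prod T).prod T) →ₗ[ℚ] C.A X := C.actL (π a) ∘ₗ C.push (fst X T) ∘ₗ
    (C.pull δ).toLinearMap ∘ₗ (compL C).flip ρ
  have hΛ : ∀ c, Λ c = C.act (π a) (C.push (fst X T) (C.pull δ (C.comp c ρ))) := fun c => rfl
  have hΛz : Λ z' = q • y := by
    have e0 : C.comp z' ρ = z' := by rw [hz', comp_assoc C A0 ρ ρ, hρρ]
    have e1 : δ ≫ prodMap (snd X T) (𝟙 T) = snd X T ≫ Obj.lift (𝟙 T) (𝟙 T) := by
      apply prod_ext <;> simp [hδ, prodMap, comp_lift]
    have e2 : δ ≫ fst (X.prod T) T = 𝟙 _ := lift_fst _ _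
    rw [hΛ, e0, hz', hA0, wg_comp, map_mul, ← C.pull_comp, e1, ← C.pull_comp δ, e2, C.pull_id,
      C.pull_comp, C.proj_right, (hq X).2, smul_mul_assoc, one_mul, act_map_smul, hπy, if_pos rfl]
  have hΛ0 : ∀ c ∈ Submodule.span ℚ {c : C.A ((X.prod T).prod T) | ∃ (x : C.A (X.prod T))
      (t : C.A T), C.Deg ((i : ℤ) + 1 - 1) x ∧ C.Deg 1 t ∧ c = C.ext x t}, Λ c = 0 := by
    intro c hc
    have hle : Submodule.span ℚ {c : C.A ((X.prod T).prod T) | ∃ (x : C.A (X.prod T))
        (t : C.A T), C.Deg ((i : ℤ) + 1 - 1) x ∧ C.Deg 1 t ∧ c = C.ext x t} ≤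
        LinearMap.ker Λ := by
      rw [Submodule.span_le]
      rintro c ⟨x, t, hx, ht, rfl⟩
      have hx' : x ∈ C.gr (X.prod T) i := gr_congr (by ring) hx
      change Λ (C.ext x t) = 0
      set ξ := C.act ρ t with hξ
      have hξm : ξ ∈ C.gr T 1 := act_mem0 C hρm ht
      have hρξ : C.act ρ ξ = ξ := by rw [hξ, ← C.act_comp, hρρ]
      have e1 : C.pull δ (C.ext x ξ) = x * C.pull (snd X T) ξ := by
        have e3 : δ ≫ fst (X.prod T) T = 𝟙 _ := lift_fst _ _
        have e4 : δ ≫ snd (X.prod T) T = snd X T := lift_snd _ _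
        rw [TheoryData.ext, map_mul, ← C.pull_comp, ← C.pull_comp, e3, e4, C.pull_id]
      set G := C.comp ρ (C.comp (tp C x) (π a)) with hG
      have hGξ : Λ (C.ext x t) = C.act G ξ := by
        rw [hΛ, ext_comp, ← hξ, e1, ← act_tp C x ξ, hG, C.act_comp, hρξ, C.act_comp]
      have htx : tp C x ∈ C.gr (T.prod X) (T.dim + ((i : ℤ) - 1)) := by
        have := tp_mem C hx'
        exact gr_congr (by rw [hT]; push_cast; ring) this
      have hGm : G ∈ C.gr (T.prod X) (T.dim + ((i : ℤ) - 1)) := by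
        have h1 := comp_mem C (e := (i : ℤ) - 1) (e' := 0) htx
          (by rw [add_zero]; exact hπ.deg a)
        have h2 := comp_mem C (e := 0) (by rw [add_zero]; exact hρm) h1
        exact gr_congr (by ring) h2
      have hGc : H.cl G = 0 := by
        apply hom_zero_of_act H
        intro b
        have h1 : H.actL (H.cl G) = 0 := by
          apply ext_gr H
          intro l b hb
          rw [TheoryData.actL_apply, LinearMap.zero_apply, hG, actH_comp, actH_comp, ← hρ1,
            curveCK_act H hT ho hd 1 l hb]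
          split_ifs with h
          · have h2 := actH_mem H htx hb
            rw [hπ.actH_eq a _ h2, if_neg]
            rw [h]
            push_cast
            omega
          · rw [TheoryData.act_map_zero, TheoryData.act_map_zero]
        exact LinearMap.congr_fun h1 b
      have h1 := hk2 G (gr_congr (by rw [hT]; push_cast; ring) hGm) hGc ξ hξm (hρcl t ht)
      have h2 : C.act (π a) (C.act G ξ) = C.act G ξ := by
        rw [hG, C.act_comp, C.act_comp, ← C.act_comp, hπ.idem]
      rw [hGξ, ← h2]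
      exact h1
    exact hle hc
  have h1 : q • y = 0 := by rw [← hΛz, hΛ0 z' hspan]
  exact (smul_eq_zero.1 h1).resolve_left hq0


/-- **(C) and algebraic equivalence.** -/
theorem tfae_algebraic (hF : FibreProperty C) {o : C.A T} (hT : T.dim = 1) (ho : C.Deg 1 o)
    (hd : HasDegree C o 1) (ho' : H.cl (C.pull (Obj.lift (𝟙 T) (𝟙 T)) (oddProj C o)) ≠ 0) :
    List.TFAE [
      ∀ X : 𝒱.Obj, Independent H X,
      ∀ (X : 𝒱.Obj) (π : ℕ → C.A (X.prod X)), IsCK H X π → ∀ (i : ℕ) (T : 𝒱.Obj), T.dim = 1 →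
        ∀ (Γ : C.A (T.prod X)) (ξ : C.A T), Γ ∈ C.gr (T.prod X) i → ξ ∈ C.gr T 1 →
          H.cl ξ = 0 → C.act Γ ξ ∈ fil C π i 1,
      ∀ (X : 𝒱.Obj) (i : ℕ), (X.dim = 2 * i ∨ X.dim + 1 = 2 * i) →
        ∀ π : ℕ → C.A (X.prod X), IsCK H X π → ∀ (Γ : C.A (T.prod X)) (ξ : C.A T),
          Γ ∈ C.gr (T.prod X) i → ξ ∈ C.gr T 1 → H.cl ξ = 0 → C.act Γ ξ ∈ fil C π i 1] := by
  tfae_have 1 → 2 := by
    intro h X π hπ i T' hT' Γ ξ hΓ hξ hξ0
    have hz : ∀ (X : 𝒱.Obj) (i : ℕ), ZeroIsAll H X i := fun X i =>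
      zeroIsAll_of_indepZero (independentZero_of (h X)) i
    obtain ⟨o', ho1, h1, h2⟩ := exists_deg_one C T'
    have ho1' : C.Deg 1 o' := by
      rw [hT'] at ho1
      exact_mod_cast ho1
    have hd' : HasDegree C o' 1 := fun Y => by
      rw [one_smul]
      exact ⟨h2 Y, h1 Y⟩
    have hNR : NoRaising H T' X := noRaising_of_zeroIsAll (fun i => hz _ i)
    rw [mem_fil hπ]
    have hm : C.act Γ ξ ∈ C.gr X i := by
      have h3 := act_mem' C (e := (i : ℤ) - 1) (Γ := Γ)
        (gr_congr (by rw [hT']; push_cast; ring) hΓ) hξ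
      exact gr_congr (by ring) h3
    refine ⟨hm, fun b hb => ?_⟩
    have h3 := hNR _ π (curveCK_isCK H hT' ho1' hd') hπ ((i : ℤ) - 1) Γ
      (gr_congr (by rw [hT']; push_cast; ring) hΓ) 1 b (by push_cast; omega)
    have h4 := congrArg (fun g => C.act g ξ) h3
    have e : curveCK C o' 1 = oddProj C o' := rfl
    simp only [C.act_comp, TheoryData.act_zero] at h4
    rw [e, act_odd_self (H := H) hT' ho1' hξ hξ0] at h4
    exact h4
  tfae_have 2 → 3 := fun h X i _ π hπ Γ ξ hΓ hξ hξ0 => h X π hπ i T hT Γ ξ hΓ hξ hξ0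
  tfae_have 3 → 1 := by
    intro h
    have hmid : ∀ (X : 𝒱.Obj) (i : ℕ), X.dim = 2 * i → ZeroIsAll H X i := by
      intro X i hX π hπ
      ext x
      rw [mem_fil hπ]
      refine ⟨fun h => h.1, fun hx => ⟨hx, fun a ha => ?_⟩⟩
      have ha' : 2 * i < a := by omega
      have hxa : C.act (π a) x = C.act (π a) (C.act (π a) x) := by
        rw [← C.act_comp, hπ.idem]
      have hym : C.act (π a) x ∈ C.gr X i := act_mem0 C (hπ.deg a) hx
      have hyc : H.cl (C.act (π a) x) = 0 := cl_act_zero hπ (by omega) hx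
      rw [hxa]
      apply eq_zero_of_shadow hF hT ho hd ho' hX hπ ha'.le _ hym hyc
      · -- the exterior products
        intro ξ hξ hξ0
        rw [← hxa]
        set y := C.act (π a) x with hy
        have hcur := curveCK_isCK H hT ho hd
        have hπy : ∀ l : ℕ, C.act (π l) y = if l = a then y else 0 := by
          intro l
          rw [hy, ← C.act_comp, hπ.comp_eq]
          by_cases h : a = l
          · rw [if_pos h, if_pos h.symm]
          · rw [if_neg h, if_neg (fun h' => h h'.symm), TheoryData.act_zero]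
        -- the correspondence `y × Δ`
        set A0 := wg C (snd X T) (C.pull (fst X T) y) with hA0
        have hA0m : A0 ∈ C.gr ((X.prod T).prod T) ((i : ℤ) + 1) := by
          have h1 := wg_mem (snd X T) (C.pull_mem (fst X T) hym)
          exact gr_congr (by rw [hT]; push_cast; ring) h1
        have hA0e : C.act (tp C A0) ξ = C.ext y ξ := by
          have e1 : Obj.lift (𝟙 (X.prod T)) (snd X T) ≫ snd (X.prod T) T = snd X T :=
            lift_snd _ _
          have e2 : Obj.lift (𝟙 (X.prod T)) (snd X T) ≫ fst (X.prod T) T = 𝟙 _ := lift_fst _ _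
          rw [act_tp C A0 ξ, hA0, wg, ← C.proj_right, ← C.pull_comp, e1, ← C.push_comp, e2,
            C.push_id]
          rfl
        have h1 := h (X.prod T) (i + 1) (Or.inr (by rw [dim_prod, hX, hT]; ring)) _
          (hπ.prod hcur) (tp C A0) ξ (by
            have := tp_mem C hA0m
            exact_mod_cast this) hξ hξ0
        rw [hA0e, mem_fil (hπ.prod hcur)] at h1
        have h2 := h1.2 (a + 1) (by push_cast; omega)
        rw [← h2, prodCK, act_sum, Finset.sum_eq_single a]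
        · rw [act_tens_ext C (π a) _ (fun f c => ch_comm C _ _), hπy, if_pos rfl,
            Nat.add_sub_cancel_left]
          have e : curveCK C o 1 = oddProj C o := rfl
          rw [e, act_odd_self (H := H) hT ho hξ hξ0]
        · intro l _ hl
          rw [act_tens_ext C (π l) _ (fun f c => ch_comm C _ _), hπy, if_neg hl,
            TheoryData.ext_zero_left]
        · intro h
          exact absurd (Finset.mem_range.2 (by omega)) h
      · intro G hG _ ξ hξ hξ0
        have h1 := h X i (Or.inl hX) π hπ G ξ hG hξ hξ0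
        rw [mem_fil hπ] at h1
        exact h1.2 a (by omega)
    exact fun X => independent_of_unipotent (unipotent_of_triangular (triangular_of_diag
      (diag_of_zeroIsAll (hmid _ _ (by rw [dim_prod, two_mul])))))
  tfae_finish

end Pool.Agent.Y148.KP
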