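import Pool.Agent.Y148.KP.Prod
import Pool.Agent.Y148.KL.Translate

/-!
# Translation of the definitions
-/

open CategoryTheory AlgebraicGeometry

universe u v w

namespace Pool.Agent.Y148.KP

open Pool.Agent.H914 Pool.Agent.H914.VarClass Pool.Agent.H914.VarClass.Obj Pool.Agent.W492.BB
  Pool.Agent.TH133 Pool.Agent.Y148 Pool.Agent.Y148.BS Pool.Agent.Y148.SS Pool.Agent.Y148.KL

set_option linter.unusedSectionVars false
set_option linter.unusedVariables false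

variable {k : Type u} [Field k] {𝒱 : VarClass k} {C : TheoryData.{u, v, 0} 𝒱 ℚ}
  {K : Type w} [Field K] {H : WeilTheoryData.{u, v, w} C K} {X Y Z W T P : 𝒱.Obj}

variable [hC : IsChowProj C] [hH : IsWeilProj H]

lemma inStep_iff_fil {π : ℕ → C.A (X.prod X)} (hπ : IsCK H X π) {j ν : ℕ} {z : C.A X} :
    InStep π j ν z ↔ z ∈ Y110.fil C π j ν := by
  rw [KL.inStep_iff, Y110.fil_eq_ckFil hπ j ν]

lemma murreD_iff : (∀ X : 𝒱.Obj, MurreConjectureD H X) ↔
    ∀ (X : 𝒱.Obj) (π : ℕ → C.A (X.prod X)), IsCK H X π → ∀ i : ℕ, Y110.MurreDFor H π i := by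
  constructor
  · intro h X π hπ i z
    have h1 := h X π (isChowKunneth_iff.2 hπ) i z
    rw [inStep_iff_fil hπ] at h1
    exact_mod_cast h1
  · intro h X π hπ i z
    have hπ' := isChowKunneth_iff.1 hπ
    rw [inStep_iff_fil hπ']
    exact_mod_cast h X π hπ' i z

/-- **Murre's conjecture (D) and products of homologically trivial cycles.** -/
theorem products {E : 𝒱.Obj} {o : C.A E} (hF : BS.FibreProperty C) (hE : E.dim = 1)
    (ho : IsDegreeOne C o)
    (hg : ¬ IsHomTrivial H (C.up (Obj.lift (𝟙 E) (𝟙 E)) (oddPart C o))) :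
    List.TFAE [
      ∀ X : 𝒱.Obj, MurreConjectureD H X,
      ∀ (X : 𝒱.Obj) (π : ℕ → C.A (X.prod X)), IsChowKunneth H π → ∀ (i j : ℕ) (x y : C.A X),
        C.Deg i x → IsHomTrivial H x → C.Deg j y → IsHomTrivial H y →
          InStep π (i + j) 2 (C.mul x y),
      ∀ (X : 𝒱.Obj) (i : ℕ), X.dim = 2 * i → ∀ π : ℕ → C.A ((X.prod E).prod (X.prod E)),
        IsChowKunneth H π → ∀ (x : C.A (X.prod E)) (ξ : C.A E), C.Deg i x → IsHomTrivial H x →
          C.Deg 1 ξ → IsHomTrivial H ξ → InStep π (i + 1) 2 (C.mul x (C.up (snd X E) ξ)),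
      ∀ (X : 𝒱.Obj) (i : ℕ), X.dim = 2 * i → ∀ π : ℕ → C.A (X.prod X), IsChowKunneth H π →
        ∀ (a : ℕ), 2 * i ≤ a → ∀ ξ : C.A E, C.Deg 1 ξ → IsHomTrivial H ξ →
          (∀ y : C.A X, C.Deg i y → IsHomTrivial H y → cross C (C.act (π a) y) ξ = 0) ∧
          ∀ Γ : C.A (E.prod X), C.Deg i Γ → IsHomTrivial H Γ → C.act (π a) (C.act Γ ξ) = 0,
      ∀ (X : 𝒱.Obj) (i : ℕ), X.dim = 2 * i → ∀ π : ℕ → C.A (X.prod X), IsChowKunneth H π →
        ∀ y : C.A X, C.Deg i y → InStep π i 0 y ∧ ∀ ξ : C.A E, C.Deg 1 ξ → IsHomTrivial H ξ →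
          IsHomTrivial H y → cross C (C.act (π (2 * i)) y) ξ = 0] := by
  rw [isDegreeOne_iff' o hE] at ho
  have h := tfae_products (H := H) (fibreProperty hF) hE ho.1 ho.2 hg
  have h1 := murreD_iff (C := C) (H := H)
  have e01 := h.out 0 1
  have e23 := h.out 2 3
  have e30 := h.out 3 0
  have e04 := h.out 0 4
  have e40 := h.out 4 0
  tfae_have 1 → 2 := by
    intro h0 X π hπ i j x y hx hx0 hy hy0
    have hπ' := isChowKunneth_iff.1 hπ
    rw [inStep_iff_fil hπ']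
    have := e01.1 (h1.1 h0) X π hπ' i j x y hx hx0 hy hy0
    exact_mod_cast this
  tfae_have 2 → 3 := by
    intro h0 X i hX π hπ x ξ hx hx0 hξ hξ0
    exact h0 (X.prod E) π hπ i 1 x (C.up (snd X E) ξ) hx hx0 (by
      exact_mod_cast C.pull_mem (snd X E) hξ) (by
        change H.cl (C.pull (snd X E) ξ) = 0
        rw [H.cl_pull, show H.cl ξ = 0 from hξ0, map_zero])
  tfae_have 3 → 4 := by
    intro h0 X i hX π hπ a ha ξ hξ hξ0
    have h2 : Shadow H E π i := e23.1 (fun X i hX π hπ x hx hx0 ξ hξ hξ0 => by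
      have := h0 X i hX π (isChowKunneth_iff.2 hπ) x ξ hx hx0 hξ hξ0
      rw [inStep_iff_fil hπ] at this
      exact_mod_cast this) X i hX π (isChowKunneth_iff.1 hπ)
    exact ⟨fun y hy hy0 => (h2 a ha).1 y hy hy0 ξ hξ hξ0,
      fun Γ hΓ hΓ0 => (h2 a ha).2 Γ hΓ hΓ0 ξ hξ hξ0⟩
  tfae_have 4 → 1 := by
    intro h0
    refine h1.2 (e30.1 fun X i hX π hπ a ha =>
      ⟨fun y hy hy0 ξ hξ hξ0 => ?_, fun Γ hΓ hΓ0 ξ hξ hξ0 => ?_⟩)
    · exact (h0 X i hX π (isChowKunneth_iff.2 hπ) a ha ξ hξ hξ0).1 y hy hy0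
    · exact (h0 X i hX π (isChowKunneth_iff.2 hπ) a ha ξ hξ hξ0).2 Γ hΓ hΓ0
  tfae_have 1 → 5 := by
    intro h0 X i hX π hπ y hy
    have hπ' := isChowKunneth_iff.1 hπ
    obtain ⟨h2, h3⟩ := e04.1 (h1.1 h0)
    refine ⟨?_, fun ξ hξ hξ0 hy0 => h3 X i hX π hπ' y hy hy0 ξ hξ hξ0⟩
    rw [inStep_iff_fil hπ', Nat.cast_zero, h2 X i π hπ']
    exact hy
  tfae_have 5 → 1 := by
    intro h0
    have hmid : ∀ (X : 𝒱.Obj) (i : ℕ), X.dim = 2 * i → Y110.ZeroIsAll H X i := by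
      intro X i hX π hπ
      ext y
      rw [Y110.mem_fil hπ]
      constructor
      · exact fun h => h.1
      · intro hy
        have h2 := (h0 X i hX π (isChowKunneth_iff.2 hπ) y hy).1
        rw [inStep_iff_fil hπ, Nat.cast_zero, Y110.mem_fil hπ] at h2
        exact h2
    have hall : ∀ (X : 𝒱.Obj) (i : ℕ), Y110.ZeroIsAll H X i := fun X i =>
      Y110.zeroIsAll_of_indepZero (Y110.independentZero_of (Y110.independent_of_unipotent
        (Y110.unipotent_of_triangular (Y110.triangular_of_diag (Y110.diag_of_zeroIsAll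
          (hmid _ _ (by rw [dim_prod, two_mul]))))))) i
    exact h1.2 (e40.1 ⟨hall, fun X i hX π hπ y hy hy0 ξ hξ hξ0 =>
      (h0 X i hX π (isChowKunneth_iff.2 hπ) y hy).2 ξ hξ hξ0 hy0⟩)
  tfae_finish

end Pool.Agent.Y148.KP
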