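import Pool.Agent.Y148.KP.Alg
import Pool.Agent.Y148.KP.Translate

/-!
# Translation of the definitions
-/

open CategoryTheory AlgebraicGeometry

universe u v w

namespace Pool.Agent.Y148.KP

open Pool.Agent.H914 Pool.Agent.H914.VarClass Pool.Agent.H914.VarClass.Obj Pool.Agent.W492.BB
  Pool.Agent.TH133 Pool.Agent.Y148 Pool.Agent.Y148.BS Pool.Agent.Y148.SS Pool.Agent.Y148.KL

set_option linter.unusedSectionVars false
set_option linter.unusedVariables false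

variable {k : Type u} [Field k] {𝒱 : VarClass k} {C : TheoryData.{u, v, 0} 𝒱 ℚ}
  {K : Type w} [Field K] {H : WeilTheoryData.{u, v, w} C K} {X Y Z W T P : 𝒱.Obj}

variable [hC : IsChowProj C] [hH : IsWeilProj H]

lemma independent_iff : (∀ X : 𝒱.Obj, Y110.Independent H X) ↔
    ∀ (X : 𝒱.Obj) (π π' : ℕ → C.A (X.prod X)), IsChowKunneth H π → IsChowKunneth H π' →
      ∀ (j ν : ℕ) (z : C.A X), InStep π j ν z ↔ InStep π' j ν z := by
  constructor
  · intro h X π π' hπ hπ' j ν z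
    rw [inStep_iff_fil (isChowKunneth_iff.1 hπ), inStep_iff_fil (isChowKunneth_iff.1 hπ'),
      h X π π' (isChowKunneth_iff.1 hπ) (isChowKunneth_iff.1 hπ') j ν]
  · intro h
    have h0 : ∀ (X : 𝒱.Obj) (i : ℕ), Y110.IndependentZero H X i := by
      intro X i π π' hπ hπ'
      ext z
      have h1 := h X π π' (isChowKunneth_iff.2 hπ) (isChowKunneth_iff.2 hπ') i 0 z
      rw [inStep_iff_fil hπ, inStep_iff_fil hπ', Nat.cast_zero] at h1
      exact h1
    exact fun X => Y110.independent_of_unipotent (Y110.unipotent_of_triangular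
      (Y110.triangular_of_diag (Y110.diag_of_indepZero (h0 _ _))))

/-- **Murre's conjecture (C) and algebraic equivalence.** -/
theorem algebraic {E : 𝒱.Obj} {o : C.A E} (hF : BS.FibreProperty C) (hE : E.dim = 1)
    (ho : IsDegreeOne C o)
    (hg : ¬ IsHomTrivial H (C.up (Obj.lift (𝟙 E) (𝟙 E)) (oddPart C o))) :
    List.TFAE [
      ∀ (X : 𝒱.Obj) (π π' : ℕ → C.A (X.prod X)), IsChowKunneth H π → IsChowKunneth H π' →
        ∀ (j ν : ℕ) (z : C.A X), InStep π j ν z ↔ InStep π' j ν z,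
      ∀ (X : 𝒱.Obj) (π : ℕ → C.A (X.prod X)), IsChowKunneth H π → ∀ (i : ℕ) (T : 𝒱.Obj),
        T.dim = 1 → ∀ (Γ : C.A (T.prod X)) (ξ : C.A T), C.Deg i Γ → C.Deg 1 ξ →
          IsHomTrivial H ξ → InStep π i 1 (C.act Γ ξ),
      ∀ (X : 𝒱.Obj) (i : ℕ), (X.dim = 2 * i ∨ X.dim + 1 = 2 * i) →
        ∀ π : ℕ → C.A (X.prod X), IsChowKunneth H π → ∀ (Γ : C.A (E.prod X)) (ξ : C.A E),
          C.Deg i Γ → C.Deg 1 ξ → IsHomTrivial H ξ → InStep π i 1 (C.act Γ ξ)] := by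
  rw [isDegreeOne_iff' o hE] at ho
  have h := tfae_algebraic (H := H) (fibreProperty hF) hE ho.1 ho.2 hg
  have h1 := independent_iff (C := C) (H := H)
  have e01 := h.out 0 1
  have e20 := h.out 2 0
  tfae_have 1 → 2 := by
    intro h0 X π hπ i T hT Γ ξ hΓ hξ hξ0
    have hπ' := isChowKunneth_iff.1 hπ
    rw [inStep_iff_fil hπ']
    exact_mod_cast e01.1 (h1.2 h0) X π hπ' i T hT Γ ξ hΓ hξ hξ0
  tfae_have 2 → 3 := fun h0 X i _ π hπ Γ ξ hΓ hξ hξ0 => h0 X π hπ i E hE Γ ξ hΓ hξ hξ0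
  tfae_have 3 → 1 := by
    intro h0
    refine h1.1 (e20.1 fun X i hX π hπ Γ ξ hΓ hξ hξ0 => ?_)
    have h2 := h0 X i hX π (isChowKunneth_iff.2 hπ) Γ ξ hΓ hξ hξ0
    rw [inStep_iff_fil hπ] at h2
    exact_mod_cast h2
  tfae_finish

end Pool.Agent.Y148.KP
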